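import Pool.Agent.H83.V.FV

set_option autoImplicit false

open MeasureTheory ProbabilityTheory Filter Topology Finset
open scoped Nat ENNReal

namespace Pool.Agent.H46.V

open Pool.Agent.H83.V

/-- extension by zero -/
def ext {m : ℕ} (v : Fin m → ℤ) (t : ℕ) : ℤ := if h : t < m then v ⟨t, h⟩ else 0

theorem ext_pat (z : Bool) (m n t : ℕ) (ht : t < m) : ext (pat z m n) t = fz z (n + t + 1) := by
  unfold ext pat fz
  rw [dif_pos ht]

/-- the code of a rule -/
def GG (k : ℕ) (D : (Fin k → ℤ) → (Fin k → ℤ) → ℤ) : Set (Fin (4 * k) → ℤ) :=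
  {v | ∀ i, k ≤ i → i < 3 * k → ext v i = 0 ∨
    ext v i = D (fun j => ext v (i - 1 - j)) (fun j => ext v (i + 1 + j))}

/-- the places -/
def II (k : ℕ) : Finset (Fin (4 * k)) := univ.filter fun i => k ≤ (i : ℕ) ∧ (i : ℕ) < 3 * k

theorem II_card (k : ℕ) (hk : 0 < k) : 4 * k ≤ 2 * (II k).card := by
  have h : (range (2 * k)).card ≤ (II k).card := by
    refine card_le_card_of_injOn
      (fun t => if h : t + k < 4 * k then (⟨t + k, h⟩ : Fin (4 * k)) else ⟨t % (4 * k), by
        refine Nat.mod_lt _ ?_
        omega⟩) ?_ ?_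
    · intro t ht
      simp only [coe_range, Set.mem_Iio] at ht
      have h1 : t + k < 4 * k := by omega
      simp only [h1, dif_pos, II, coe_filter, mem_univ, true_and, Set.mem_ofPred_eq]
      omega
    · intro t ht s hs hts
      simp only [coe_range, Set.mem_Iio] at ht hs
      have h1 : t + k < 4 * k := by omega
      have h2 : s + k < 4 * k := by omega
      simp only [h1, h2, dif_pos, Fin.mk.injEq] at hts
      omega
  rw [card_range] at h
  omega

theorem ext_eq {m : ℕ} {v w : Fin m → ℤ} {i : Fin m} (h : ∀ j, j ≠ i → v j = w j) (t : ℕ)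
    (ht : t ≠ i) : ext v t = ext w t := by
  unfold ext
  split_ifs with h1
  · refine h _ fun h2 => ht ?_
    rw [← h2]
  · rfl

theorem scode (k : ℕ) (D : (Fin k → ℤ) → (Fin k → ℤ) → ℤ) : SCode (II k) (GG k D) := by
  intro v hv w hw i hi hvi hwi
  by_contra hc
  push Not at hc
  simp only [II, mem_filter, mem_univ, true_and] at hi
  have hi4 : (i : ℕ) < 4 * k := i.2
  have e1 : ext v i = v i := by
    unfold ext
    rw [dif_pos hi4]
  have e2 : ext w i = w i := by
    unfold ext
    rw [dif_pos hi4]
  have h1 := hv i hi.1 hi.2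
  have h2 := hw i hi.1 hi.2
  have a1 : (fun j : Fin k => ext v ((i : ℕ) - 1 - j)) =
      fun j : Fin k => ext w ((i : ℕ) - 1 - j) := by
    funext j
    refine ext_eq hc _ ?_
    have := j.2
    omega
  have a2 : (fun j : Fin k => ext v ((i : ℕ) + 1 + j)) =
      fun j : Fin k => ext w ((i : ℕ) + 1 + j) := by
    funext j
    refine ext_eq hc _ ?_
    omega
  rw [e1, a1, a2] at h1
  rw [e2] at h2
  omega

theorem shift_card (P : ℕ → Prop) [DecidablePred P] (n H i : ℕ) :
    ((range H).filter fun h => P (n + (h + i))).card ≤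
      ((range H).filter fun h => P (n + h)).card + i := by
  have h1 : ((range H).filter fun h => P (n + (h + i))).card ≤
      (((range H).filter fun h => P (n + h)) ∪ Ico H (H + i)).card := by
    refine card_le_card_of_injOn (fun h => h + i) ?_ fun a _ b _ h => by
      simpa using h
    intro h hh
    simp only [coe_filter, mem_range, Set.mem_ofPred_eq] at hh
    simp only [coe_union, coe_filter, mem_range, coe_Ico, Set.mem_union, Set.mem_ofPred_eq,
      Set.mem_Ico]
    by_cases h2 : h + i < H
    · exact Or.inl ⟨h2, hh.2⟩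
    · right
      omega
  refine h1.trans ((card_union_le _ _).trans ?_)
  simp

open Classical in
theorem count (z : Bool) (k : ℕ) (D : (Fin k → ℤ) → (Fin k → ℤ) → ℤ) (H n : ℕ) :
    ((range H).filter fun h => pat z (4 * k) (n + h) ∉ GG k D).card ≤
      2 * k * (((range H).filter fun h => Er z k D (n + h)).card + 2 * k) := by
  have h1 : ((range H).filter fun h => pat z (4 * k) (n + h) ∉ GG k D) ⊆
      (range (2 * k)).biUnion fun i => (range H).filter fun h => Er z k D (n + (h + i)) := by
    intro h hh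
    rw [mem_filter] at hh
    obtain ⟨hh, hg⟩ := hh
    simp only [GG, Set.mem_ofPred_eq] at hg
    push Not at hg
    obtain ⟨i, hi1, hi2, hi3, hi4⟩ := hg
    rw [mem_biUnion]
    refine ⟨i - k, ?_, ?_⟩
    · rw [mem_range]
      omega
    · rw [mem_filter]
      refine ⟨hh, ?_⟩
      have e0 : ext (pat z (4 * k) (n + h)) i = fz z (n + (h + (i - k)) + k + 1) := by
        rw [ext_pat _ _ _ _ (by omega)]
        congr 1
        omega
      refine ⟨?_, ?_⟩
      · rw [← e0]
        exact hi3
      · rw [← e0]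
        convert hi4 using 2
        · funext j
          have := j.2
          rw [ext_pat _ _ _ _ (by omega)]
          congr 1
          omega
        · funext j
          have := j.2
          rw [ext_pat _ _ _ _ (by omega)]
          congr 1
          omega
  refine (card_le_card h1).trans (card_biUnion_le.trans ?_)
  have h2 : ∀ i ∈ range (2 * k), ((range H).filter fun h => Er z k D (n + (h + i))).card ≤
      ((range H).filter fun h => Er z k D (n + h)).card + 2 * k := by
    intro i hi
    rw [mem_range] at hi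
    have := shift_card (Er z k D) n H i
    omega
  refine (sum_le_card_nsmul _ _ _ h2).trans ?_
  rw [card_range, smul_eq_mul]

theorem pf_PRD : T_PRD := by
  classical
  intro z k ρ hk hρ hV
  obtain ⟨H₀, hH⟩ := hV (II k) (II_card k hk)
  have hρ4 : 0 < ρ ^ 4 := by positivity
  obtain ⟨H₁, hH₁⟩ := exists_nat_ge ((4 * (k : ℝ) ^ 2) / (4 / 5 * (ρ ^ 4 / 10 ^ 15)))
  refine ⟨max H₀ H₁, fun H hHm => ?_⟩
  obtain ⟨C, hC⟩ := hH H (le_of_max_le_left hHm)
  refine ⟨C, fun x y hx hxy => (sum_le_sum_of_subset_of_nonneg ?_ fun _ _ _ => by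
    positivity).trans (hC x y hx hxy)⟩
  intro n hn
  rw [mem_filter] at hn ⊢
  refine ⟨hn.1, ?_⟩
  obtain ⟨D, hD⟩ := hn.2
  refine ⟨GG k D, scode k D, ?_⟩
  have h1 : (((range H).filter fun h => pat z (4 * k) (n + h) ∉ GG k D).card : ℝ) ≤
      2 * k * ((((range H).filter fun h => Er z k D (n + h)).card : ℝ) + 2 * k) := by
    exact_mod_cast count z k D H n
  have hk' : (0 : ℝ) < k := by exact_mod_cast hk
  have hH1 : (H₁ : ℝ) ≤ H := by exact_mod_cast le_of_max_le_right hHm
  have h2 : 4 * (k : ℝ) ^ 2 ≤ 4 / 5 * (ρ ^ 4 / 10 ^ 15) * H := by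
    have h3 := hH₁.trans hH1
    rw [div_le_iff₀ (by positivity)] at h3
    linarith
  have h4 : 2 * (k : ℝ) * (((range H).filter fun h => Er z k D (n + h)).card : ℝ) ≤
      1 / 5 * (ρ ^ 4 / 10 ^ 15) * H := by
    calc 2 * (k : ℝ) * (((range H).filter fun h => Er z k D (n + h)).card : ℝ)
        ≤ 2 * (k : ℝ) * (ρ ^ 4 / (10 ^ 16 * k) * H) := by
          refine mul_le_mul_of_nonneg_left ?_ (by positivity)
          convert hD using 3
      _ = 1 / 5 * (ρ ^ 4 / 10 ^ 15) * H := by
          field_simp
          ring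
  have h5 : (((range H).filter fun h => pat z (4 * k) (n + h) ∉ GG k D).card : ℝ) ≤
      ρ ^ 4 / 10 ^ 15 * H := by
    linarith
  convert h5 using 3

end Pool.Agent.H46.V
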